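import Pool.Agent.Helper68.QC.St4

/-!
# PART M of project QD, module IF3: uniform bounds, equicontinuity, Hoelder continuity of `nq μ`
-/

set_option autoImplicit false

namespace Pool.Agent.Helper94.QCM

open Pool.Agent.Helper68.QC
open MeasureTheory Set Filter Topology Complex
open scoped ContDiff ComplexConjugate ENNReal

/-- pointwise convergence -/
private lemma if3_lim {F : Ultrafilter ℕ} {W : ℕ → ℂ ≃ₜ ℂ} {w : ℂ ≃ₜ ℂ}
    (h : LU (F : Filter ℕ) W w) (z : ℂ) :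
    Tendsto (fun n => W n z) (F : Filter ℕ) (𝓝 (w z)) ∧
    Tendsto (fun n => (W n).symm z) (F : Filter ℕ) (𝓝 (w.symm z)) :=
  ⟨((h ‖z‖).1).tendsto_at (by simp), ((h ‖z‖).2).tendsto_at (by simp)⟩

/-- a bound for `w z` passes to the limit -/
private lemma if3_one {F : Ultrafilter ℕ} {W : ℕ → ℂ ≃ₜ ℂ} {w : ℂ ≃ₜ ℂ}
    (h : LU (F : Filter ℕ) W w) (z : ℂ) (M : ℝ)
    (hM : ∀ n, ‖W n z‖ ≤ M ∧ ‖(W n).symm z‖ ≤ M) : ‖w z‖ ≤ M ∧ ‖w.symm z‖ ≤ M :=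
  ⟨le_of_tendsto (if3_lim h z).1.norm (Eventually.of_forall fun n => (hM n).1),
    le_of_tendsto (if3_lim h z).2.norm (Eventually.of_forall fun n => (hM n).2)⟩

/-- a bound for `w p - w q` passes to the limit -/
private lemma if3_two {F : Ultrafilter ℕ} {W : ℕ → ℂ ≃ₜ ℂ} {w : ℂ ≃ₜ ℂ}
    (h : LU (F : Filter ℕ) W w) (p q : ℂ) (M : ℝ)
    (hM : ∀ n, ‖W n p - W n q‖ ≤ M ∧ ‖(W n).symm p - (W n).symm q‖ ≤ M) :
    ‖w p - w q‖ ≤ M ∧ ‖w.symm p - w.symm q‖ ≤ M :=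
  ⟨le_of_tendsto ((if3_lim h p).1.sub (if3_lim h q).1).norm
      (Eventually.of_forall fun n => (hM n).1),
    le_of_tendsto ((if3_lim h p).2.sub (if3_lim h q).2).norm
      (Eventually.of_forall fun n => (hM n).2)⟩

theorem pIF3 : Pool.Agent.Helper68.QC.StIF3 := by
  intro hNQD hEQS hHLQ
  refine ⟨?_, ?_, ?_⟩
  · intro k hk R
    by_cases hk0 : 0 ≤ k
    · obtain ⟨M, hM⟩ := (hEQS k hk0 hk R).1
      refine ⟨M, fun μ hμ z hz => ?_⟩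
      obtain ⟨-, -, -, F, W, hW, hLU⟩ := hNQD k hk μ hμ
      exact if3_one hLU z M fun n => hM (W n) (hW n).1 (hW n).2.1 (hW n).2.2 z hz
    · exact ⟨0, fun μ hμ z _ => absurd ((norm_nonneg _).trans (hμ.le z)) hk0⟩
  · intro k hk R ε hε
    by_cases hk0 : 0 ≤ k
    · obtain ⟨δ, hδ, hD⟩ := (hEQS k hk0 hk R).2 ε hε
      refine ⟨δ, hδ, fun μ hμ p q hp hq hpq => ?_⟩
      obtain ⟨-, -, -, F, W, hW, hLU⟩ := hNQD k hk μ hμ
      exact if3_two hLU p q ε fun n =>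
        hD (W n) (hW n).1 (hW n).2.1 (hW n).2.2 p q hp hq hpq
    · exact ⟨1, one_pos, fun μ hμ p _ _ _ _ => absurd ((norm_nonneg _).trans (hμ.le p)) hk0⟩
  · intro k hk R
    by_cases hk0 : 0 ≤ k
    · obtain ⟨C, β, hβ, hC⟩ := hHLQ k hk0 hk R
      refine ⟨C, β, hβ, fun μ hμ p q hp hq => ?_⟩
      obtain ⟨-, -, -, F, W, hW, hLU⟩ := hNQD k hk μ hμ
      exact if3_two hLU p q _ fun n =>
        hC (W n) (hW n).1 (hW n).2.1 (hW n).2.2 p q hp hq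
    · exact ⟨0, 1, one_pos, fun μ hμ p _ _ _ => absurd ((norm_nonneg _).trans (hμ.le p)) hk0⟩

end Pool.Agent.Helper94.QCM
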