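import Pool.Agent.Helper68.QC.St4

/-!
# PART M of project QD, module IF5: continuous dependence of `nq μ` on `μ` in `L¹_loc`
-/

set_option autoImplicit false

namespace Pool.Agent.Helper94.QCM

open Pool.Agent.Helper68.QC
open MeasureTheory Set Filter Topology Complex
open scoped ContDiff ComplexConjugate ENNReal

/-- the statement along an ultrafilter -/
private lemma if5_ultra (hNQD : StNQD) (hGRO : StGRO) (hEQC : StEQC) (hLIM : StLIM)
    (hLQD : StLQD) (hLBE : StLBE) (hUNI : StUNI) (k : ℝ) (hk : k < 1) (ι : Type)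
    (G : Ultrafilter ι) (μ : ι → ℂ → ℂ) (ν : ℂ → ℂ) (hμ : ∀ i, Bel k (μ i)) (hν : Bel k ν)
    (hl : ∀ R : ℝ, Tendsto (fun i => ∫ z in Metric.ball (0 : ℂ) R, ‖μ i z - ν z‖) G (𝓝 0)) :
    LU (G : Filter ι) (fun i => nq (μ i)) (nq ν) := by
  have hk0 : 0 ≤ k := (norm_nonneg _).trans (hν.le 0)
  obtain ⟨w, hw⟩ := hLIM ι G (fun i => nq (μ i))
    (fun R => by
      obtain ⟨M, hM⟩ := hGRO k hk R
      exact ⟨M, fun i z hz => hM (μ i) (hμ i) z hz⟩)
    (fun R ε hε => by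
      obtain ⟨δ, hδ, hD⟩ := hEQC k hk R ε hε
      exact ⟨δ, hδ, fun i p q hp hq hpq => hD (μ i) (hμ i) p q hp hq hpq⟩)
  have hdat : ∀ i, ∃ ab : (ℂ → ℂ) × (ℂ → ℂ), Measurable ab.1 ∧ Measurable ab.2 ∧
      QD k (nq (μ i)) ab.1 ab.2 ∧ ∀ᵐ z, ab.2 z = μ i z * ab.1 z := by
    intro i
    obtain ⟨-, ⟨a, b, h1, h2, h3, h4⟩, -⟩ := hNQD k hk (μ i) (hμ i)
    exact ⟨(a, b), h1, h2, h3, h4⟩
  choose ab hab using hdat
  obtain ⟨hEB, a', b', ha', hb', hQD, hWa, hWb⟩ := hLQD k ι G (fun i => nq (μ i)) w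
    (fun i => (ab i).1) (fun i => (ab i).2) hk0 hk (fun i => (hab i).2.2.1) hw
    (fun R => by
      obtain ⟨M, hM⟩ := hGRO k hk R
      exact ⟨M, fun i z hz => (hM (μ i) (hμ i) z hz).1⟩)
  have hae : ∀ᵐ z, b' z = ν z * a' z :=
    hLBE k ι G μ (fun i => (ab i).1) (fun i => (ab i).2) ν a' b' hμ hν hl
      (fun i => (hab i).2.2.1.wd.l2a) (fun i => (hab i).2.2.1.wd.l2b) hEB
      (fun i => (hab i).2.2.2) hQD.wd.l2a hQD.wd.l2b hWa hWb
  have hpt : ∀ z : ℂ, Tendsto (fun i => nq (μ i) z) (G : Filter ι) (𝓝 (w z)) := by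
    intro z
    exact ((hw ‖z‖).1).tendsto_at (by simp)
  have hw0 : w 0 = 0 := by
    have h := hpt 0
    have h2 : (fun i => nq (μ i) 0) = fun _ => (0 : ℂ) := by
      funext i
      exact (hNQD k hk (μ i) (hμ i)).1.zero
    rw [h2] at h
    exact tendsto_nhds_unique h tendsto_const_nhds
  have hw1 : w 1 = 1 := by
    have h := hpt 1
    have h2 : (fun i => nq (μ i) 1) = fun _ => (1 : ℂ) := by
      funext i
      exact (hNQD k hk (μ i) (hμ i)).1.one
    rw [h2] at h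
    exact tendsto_nhds_unique h tendsto_const_nhds
  have hwn : w = nq ν := by
    refine hUNI k hk ν hν w hw0 hw1 ∅ Set.finite_empty ?_
    rw [Set.compl_empty]
    refine ⟨a', b', hQD.wd, ?_⟩
    rw [Measure.restrict_univ]
    exact hae
  rw [← hwn]
  exact hw

theorem pIF5 : Pool.Agent.Helper68.QC.StIF5 := by
  intro hNQD hGRO hEQC hLIM hLQD hLBE hUNI k hk ι F μ ν hμ hν hl R
  have key : ∀ G : Ultrafilter ι, (G : Filter ι) ≤ F →
      LU (G : Filter ι) (fun i => nq (μ i)) (nq ν) := fun G hG =>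
    if5_ultra hNQD hGRO hEQC hLIM hLQD hLBE hUNI k hk ι G μ ν hμ hν (fun R => (hl R).mono_left hG)
  constructor
  · intro u hu
    exact mem_iff_ultrafilter.2 fun G hG => (key G hG R).1 u hu
  · intro u hu
    exact mem_iff_ultrafilter.2 fun G hG => (key G hG R).2 u hu

end Pool.Agent.Helper94.QCM
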